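import Mathlib

/-!
# Mex sequences whose initial terms are all at least two are ultimately periodic
-/

set_option autoImplicit false

namespace Pool.Agent.Results.MP_495f0d_co.AtLeastTwo

theorem key (P x y : ℕ) (hP : 0 < P) :
    (x + y + 1) % P = x % P + y % P + 1 ∨ (x + y + 1) % P + P = x % P + y % P + 1 := by
  have h : (x + y + 1) % P = (x % P + y % P + 1) % P := by
    simp [Nat.add_mod]
  have hx := Nat.mod_lt x hP
  have hy := Nat.mod_lt y hP
  rcases lt_or_ge (x % P + y % P + 1) P with h1 | h1
  · left; rw [h, Nat.mod_eq_of_lt h1]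
  · right
    rw [h, Nat.mod_eq_sub_mod h1, Nat.mod_eq_of_lt (by omega)]
    omega

theorem mex_eq (S : Set ℕ) (w : ℕ) (hw : w ∈ S) (hlt : ∀ v < w, v ∉ S) : sInf S = w := by
  apply le_antisymm (Nat.sInf_le hw)
  by_contra h
  push Not at h
  exact hlt _ h (Nat.sInf_mem ⟨w, hw⟩)

/-- the values -/
theorem values (L : ℕ) (hL : 1 ≤ L) (a : ℕ → ℕ) (hinit : ∀ i < L, 2 ≤ a i)
    (hmex : ∀ m : ℕ, L ≤ m + 1 →
      a (m + 1) = sInf {k : ℕ | ∀ i : ℕ, i ≤ m → a i + a (m - i) ≠ k}) (k : ℕ) (hk : L ≤ k) :
    a k = if k % (3 * L + 2) < L then 2 else if k % (3 * L + 2) < 2 * L + 1 then 0 else 1 := by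
  induction k using Nat.strong_induction_on with
  | _ k ih =>
    obtain ⟨m, rfl⟩ : ∃ m, k = m + 1 := ⟨k - 1, by omega⟩
    have hv : ∀ j ≤ m, (j % (3 * L + 2) < L → 2 ≤ a j) ∧
        (L ≤ j % (3 * L + 2) → j % (3 * L + 2) < 2 * L + 1 → a j = 0) ∧
        (2 * L + 1 ≤ j % (3 * L + 2) → a j = 1) := by
      intro j hj
      rcases lt_or_ge j L with h | h
      · have hm : j % (3 * L + 2) = j := Nat.mod_eq_of_lt (by omega)
        refine ⟨fun _ => hinit j h, fun h1 => by omega, fun h1 => by omega⟩
      · have := ih j (by omega) h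
        refine ⟨fun h1 => ?_, fun h1 h2 => ?_, fun h1 => ?_⟩
        · rw [this, if_pos h1]
        · rw [this, if_neg (by omega), if_pos h2]
        · rw [this, if_neg (by omega), if_neg (by omega)]
    have hr := Nat.mod_lt (m + 1) (show 0 < 3 * L + 2 by omega)
    rw [hmex m hk]
    -- values 0 and 1 are attained by given indices
    have att : ∀ i ≤ m, ∀ v, a i + a (m - i) = v →
        v ∉ {k : ℕ | ∀ i : ℕ, i ≤ m → a i + a (m - i) ≠ k} := by
      intro i hi v hiv hmem
      exact hmem i hi hiv
    -- classification of a pair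
    have cls : ∀ i ≤ m, ((m + 1) % (3 * L + 2) = i % (3 * L + 2) + (m - i) % (3 * L + 2) + 1 ∨
        (m + 1) % (3 * L + 2) + (3 * L + 2) =
          i % (3 * L + 2) + (m - i) % (3 * L + 2) + 1) := by
      intro i hi
      have := key (3 * L + 2) i (m - i) (by omega)
      rwa [show i + (m - i) + 1 = m + 1 by omega] at this
    by_cases c2 : (m + 1) % (3 * L + 2) < L
    · -- the value is 2
      rw [if_pos c2]
      have hm : 3 * L + 2 ≤ m + 1 := by
        by_contra h
        rw [Nat.mod_eq_of_lt (by omega)] at c2
        omega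
      apply mex_eq
      · intro i hi hsum
        have h1 := hv i hi
        have h2 := hv (m - i) (by omega)
        have h3 := cls i hi
        have h4 := Nat.mod_lt i (show 0 < 3 * L + 2 by omega)
        have h5 := Nat.mod_lt (m - i) (show 0 < 3 * L + 2 by omega)
        generalize i % (3 * L + 2) = s at *
        generalize (m - i) % (3 * L + 2) = t at *
        omega
      · intro v hlt
        have e1 : (2 * L) % (3 * L + 2) = 2 * L := Nat.mod_eq_of_lt (by omega)
        have e2 : L % (3 * L + 2) = L := Nat.mod_eq_of_lt (by omega)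
        interval_cases v
        · apply att (2 * L) (by omega)
          have h1 := hv (2 * L) (by omega)
          have h2 := hv (m - 2 * L) (by omega)
          have h3 := cls (2 * L) (by omega)
          have h5 := Nat.mod_lt (m - 2 * L) (show 0 < 3 * L + 2 by omega)
          rw [e1] at h1 h3
          generalize (m - 2 * L) % (3 * L + 2) = t at *
          omega
        · apply att L (by omega)
          have h1 := hv L (by omega)
          have h2 := hv (m - L) (by omega)
          have h3 := cls L (by omega)
          have h5 := Nat.mod_lt (m - L) (show 0 < 3 * L + 2 by omega)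
          rw [e2] at h1 h3
          generalize (m - L) % (3 * L + 2) = t at *
          omega
    · rw [if_neg c2]
      by_cases c0 : (m + 1) % (3 * L + 2) < 2 * L + 1
      · -- the value is 0
        rw [if_pos c0]
        apply mex_eq
        · intro i hi hsum
          have h1 := hv i hi
          have h2 := hv (m - i) (by omega)
          have h3 := cls i hi
          have h4 := Nat.mod_lt i (show 0 < 3 * L + 2 by omega)
          have h5 := Nat.mod_lt (m - i) (show 0 < 3 * L + 2 by omega)
          generalize i % (3 * L + 2) = s at *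
          generalize (m - i) % (3 * L + 2) = t at *
          omega
        · intro v hlt
          omega
      · -- the value is 1
        rw [if_neg c0]
        have hm : 2 * L + 1 ≤ m + 1 := by
          by_contra h
          rw [Nat.mod_eq_of_lt (by omega)] at c0
          omega
        apply mex_eq
        · intro i hi hsum
          have h1 := hv i hi
          have h2 := hv (m - i) (by omega)
          have h3 := cls i hi
          have h4 := Nat.mod_lt i (show 0 < 3 * L + 2 by omega)
          have h5 := Nat.mod_lt (m - i) (show 0 < 3 * L + 2 by omega)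
          generalize i % (3 * L + 2) = s at *
          generalize (m - i) % (3 * L + 2) = t at *
          omega
        · intro v hlt
          have e2 : L % (3 * L + 2) = L := Nat.mod_eq_of_lt (by omega)
          obtain rfl : v = 0 := by omega
          apply att L (by omega)
          have h1 := hv L (by omega)
          have h2 := hv (m - L) (by omega)
          have h3 := cls L (by omega)
          have h5 := Nat.mod_lt (m - L) (show 0 < 3 * L + 2 by omega)
          rw [e2] at h1 h3
          generalize (m - L) % (3 * L + 2) = t at *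
          omega

/-- If all the given terms `a 0, …, a n` are at least `2`, the mex sequence is periodic from the
index `n + 1` on, with period `3 n + 5`: it repeats `n + 2` zeros, `n + 2` ones, `n + 1` twos. -/
theorem result (a : ℕ → ℕ) (n : ℕ) (hinit : ∀ i ≤ n, 2 ≤ a i)
    (hmex : ∀ m : ℕ, n ≤ m →
      a (m + 1) = sInf {k : ℕ | ∀ i : ℕ, i ≤ m → a i + a (m - i) ≠ k}) :
    (∀ k, n + 1 ≤ k → a (k + (3 * n + 5)) = a k) ∧
    (∀ q j, j < n + 2 → a (n + 1 + q * (3 * n + 5) + j) = 0) ∧
    (∀ q j, j < n + 2 → a (n + 1 + q * (3 * n + 5) + (n + 2) + j) = 1) ∧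
    (∀ q j, j < n + 1 → a (n + 1 + q * (3 * n + 5) + (2 * n + 4) + j) = 2) := by
  have H := values (n + 1) (by omega) a (fun i hi => hinit i (by omega))
    (fun m hm => hmex m (by omega))
  rw [show 3 * (n + 1) + 2 = 3 * n + 5 by ring] at H
  refine ⟨fun k hk => ?_, fun q j hj => ?_, fun q j hj => ?_, fun q j hj => ?_⟩
  · rw [H k (by omega), H (k + (3 * n + 5)) (by omega), Nat.add_mod_right]
  · have e : (n + 1 + q * (3 * n + 5) + j) % (3 * n + 5) = n + 1 + j := by
      rw [show n + 1 + q * (3 * n + 5) + j = (n + 1 + j) + q * (3 * n + 5) by ring,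
        Nat.add_mul_mod_self_right, Nat.mod_eq_of_lt (by omega)]
    rw [H _ (by omega), e, if_neg (by omega), if_pos (by omega)]
  · have e : (n + 1 + q * (3 * n + 5) + (n + 2) + j) % (3 * n + 5) = 2 * n + 3 + j := by
      rw [show n + 1 + q * (3 * n + 5) + (n + 2) + j = (2 * n + 3 + j) + q * (3 * n + 5) by ring,
        Nat.add_mul_mod_self_right, Nat.mod_eq_of_lt (by omega)]
    rw [H _ (by omega), e, if_neg (by omega), if_neg (by omega)]
  · have e : (n + 1 + q * (3 * n + 5) + (2 * n + 4) + j) % (3 * n + 5) = j := by
      rw [show n + 1 + q * (3 * n + 5) + (2 * n + 4) + j = j + (q + 1) * (3 * n + 5) by ring,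
        Nat.add_mul_mod_self_right, Nat.mod_eq_of_lt (by omega)]
    rw [H _ (by omega), e, if_pos (by omega)]

end Pool.Agent.Results.MP_495f0d_co.AtLeastTwo
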