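import Pool.Agent.W434.MexOne

/-!
# Mex sequences of positive initial sequences ending in one
-/

set_option autoImplicit false

namespace Pool.Agent.Results.MP_495f0d_co.LastOne

/-- If all the given terms `a 0, …, a n` are positive, the last one is `1`, and the values `2` and
`3` do not both occur among them, then the mex sequence is periodic from the index `n + 1` on, with
period `3 n + 5`. -/
theorem result (a : ℕ → ℕ) (n : ℕ) (hpos : ∀ i ≤ n, 1 ≤ a i) (hlast : a n = 1)
    (h23 : (∀ i ≤ n, a i ≠ 2) ∨ (∀ i ≤ n, a i ≠ 3))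
    (hmex : ∀ m : ℕ, n ≤ m →
      a (m + 1) = sInf {k : ℕ | ∀ i : ℕ, i ≤ m → a i + a (m - i) ≠ k}) :
    ∀ k, n + 1 ≤ k → a (k + (3 * n + 5)) = a k := by
  have hper : ∃ d, d < n + 1 ∧ (0 < d → a (d - 1) = 2) ∧ (∀ i < n + 1, a i = 2 → i < d) ∧
      (0 < d → ∀ i < n + 1, a i ≠ 3) := by
    by_cases h2 : ∀ i ≤ n, a i ≠ 2
    · exact ⟨0, by omega, by omega, fun i hi h => absurd h (h2 i (by omega)), by omega⟩
    · have h3 : ∀ i ≤ n, a i ≠ 3 := h23.resolve_left h2
      push Not at h2
      obtain ⟨i0, hi0, hi2⟩ := h2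
      classical
      have hb : ∀ i, (i ≤ n ∧ a i = 2) → i ≤ n := fun i h => h.1
      set g := Nat.findGreatest (fun i => a i = 2) n with hg
      have hg2 : a g = 2 := Nat.findGreatest_spec (P := fun i => a i = 2) hi0 hi2
      have hgn : g ≤ n := Nat.findGreatest_le n
      have hgne : g ≠ n := by
        intro h
        rw [h, hlast] at hg2
        omega
      refine ⟨g + 1, by omega, fun _ => by simpa using hg2, fun i hi h => ?_,
        fun _ i hi => h3 i (by omega)⟩
      have : i ≤ g := Nat.le_findGreatest (P := fun i => a i = 2) (by omega) h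
      omega
  obtain ⟨d, hd, hd2, h2, h3⟩ := hper
  have H := Pool.Agent.W434.MexOne.values (n + 1) d (by omega) hd a
    (fun i hi => hpos i (by omega)) (by simpa using hlast) hd2 h2 h3
    (fun m hm => hmex m (by omega))
  rw [show 3 * (n + 1) + 2 = 3 * n + 5 by ring] at H
  intro k hk
  rw [H k (by omega), H (k + (3 * n + 5)) (by omega), Nat.add_mod_right]

end Pool.Agent.Results.MP_495f0d_co.LastOne
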