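import Pool.Agent.Results.MP_495f0d_co.LastOne

/-!
# Mex sequences with at most two given terms are ultimately periodic
-/

set_option autoImplicit false

namespace Pool.Agent.Results.MP_495f0d_co.TwoTerms

open Pool.Agent.Results.MP_495f0d_co.AtLeastTwo (mex_eq)

theorem zeroPos (a : ℕ → ℕ) (h0 : a 0 = 0) (h1 : 1 ≤ a 1)
    (hmex : ∀ m : ℕ, 1 ≤ m →
      a (m + 1) = sInf {k : ℕ | ∀ i : ℕ, i ≤ m → a i + a (m - i) ≠ k}) (k : ℕ) (hk : 2 ≤ k) :
    a k = k % 2 := by
  induction k using Nat.strong_induction_on with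
  | _ k ih =>
    obtain ⟨m, rfl⟩ : ∃ m, k = m + 1 := ⟨k - 1, by omega⟩
    have hv : ∀ j ≤ m, (j % 2 = 0 ∧ a j = 0) ∨ (j % 2 = 1 ∧ 1 ≤ a j) := by
      intro j hj
      rcases Nat.lt_or_ge j 2 with h | h
      · interval_cases j <;> simp [h0, h1]
      · have := ih j (by omega) h
        omega
    rw [hmex m (by omega)]
    rcases Nat.mod_two_eq_zero_or_one (m + 1) with h | h
    · rw [h]
      apply mex_eq
      · intro i hi hs
        have := hv i hi
        have := hv (m - i) (by omega)
        omega
      · intro v hv'; omega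
    · rw [h]
      apply mex_eq
      · intro i hi hs
        have := hv i hi
        have := hv (m - i) (by omega)
        omega
      · intro v hv' hmem
        have h2 := hmem 0 (by omega)
        have := hv m le_rfl
        simp only [Nat.sub_zero] at h2
        omega

theorem zeroZero (a : ℕ → ℕ) (h0 : a 0 = 0) (h1 : a 1 = 0)
    (hmex : ∀ m : ℕ, 1 ≤ m →
      a (m + 1) = sInf {k : ℕ | ∀ i : ℕ, i ≤ m → a i + a (m - i) ≠ k}) (k : ℕ) (hk : 1 ≤ k) :
    a k = (k + 2) % 3 := by
  induction k using Nat.strong_induction_on with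
  | _ k ih =>
    obtain ⟨m, rfl⟩ : ∃ m, k = m + 1 := ⟨k - 1, by omega⟩
    rcases Nat.eq_zero_or_pos m with hm0 | hm0
    · subst hm0; simpa using h1
    have hv : ∀ j ≤ m, (j = 0 ∧ a j = 0) ∨ (1 ≤ j ∧ a j = (j + 2) % 3) := by
      intro j hj
      rcases Nat.lt_or_ge j 1 with h | h
      · interval_cases j; simp [h0]
      · exact Or.inr ⟨h, ih j (by omega) h⟩
    rw [hmex m (by omega)]
    apply mex_eq
    · intro i hi hs
      have := hv i hi
      have := hv (m - i) (by omega)
      omega
    · intro v hv' hmem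
      have h2 := hmem 0 (by omega)
      have h3 := hmem 1 (by omega)
      have := hv m le_rfl
      have := hv (m - 1) (by omega)
      simp only [Nat.sub_zero] at h2
      omega

set_option maxHeartbeats 4000000 in
/-- the initial sequence `1, y` with `y ≥ 2` -/
theorem oneBig (a : ℕ → ℕ) (h0 : a 0 = 1) (h1 : 2 ≤ a 1) (u₀ u₁ h : ℕ)
    (hc : (a 1 = 2 ∧ u₀ = 3 ∧ u₁ = 3 ∧ h = 4) ∨ (a 1 = 4 ∧ u₀ = 2 ∧ u₁ = 5 ∧ h = 3) ∨
      (3 ≤ a 1 ∧ a 1 ≠ 4 ∧ u₀ = 2 ∧ u₁ = 4 ∧ h = 3))
    (hmex : ∀ m : ℕ, 1 ≤ m →
      a (m + 1) = sInf {k : ℕ | ∀ i : ℕ, i ≤ m → a i + a (m - i) ≠ k}) (k : ℕ) (hk : 2 ≤ k) :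
    a k = if k % 8 = 2 ∨ k % 8 = 3 ∨ k % 8 = 4 then 0 else
      if k % 8 = 5 then (if k = 5 then u₀ else u₁) else if k % 8 = 1 then h else 1 := by
  induction k using Nat.strong_induction_on with
  | _ k ih =>
    obtain ⟨m, rfl⟩ : ∃ m, k = m + 1 := ⟨k - 1, by omega⟩
    have hv : ∀ j ≤ m, (j = 0 ∧ a j = 1) ∨ (j = 1 ∧ a j = a 1) ∨
        (2 ≤ j ∧ 2 ≤ j % 8 ∧ j % 8 ≤ 4 ∧ a j = 0) ∨ (j = 5 ∧ a j = u₀) ∨
        (13 ≤ j ∧ j % 8 = 5 ∧ a j = u₁) ∨ (9 ≤ j ∧ j % 8 = 1 ∧ a j = h) ∨
        (6 ≤ j ∧ (j % 8 = 6 ∨ j % 8 = 7 ∨ j % 8 = 0) ∧ a j = 1) := by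
      intro j hj
      rcases Nat.lt_or_ge j 2 with h' | h'
      · interval_cases j <;> simp [h0]
      · have := ih j (by omega) h'
        split_ifs at this <;> omega
    rw [hmex m (by omega)]
    split_ifs with c1 c2 c3 c4
    · apply mex_eq
      · intro i hi hs
        have := hv i hi
        have := hv (m - i) (by omega)
        omega
      · intro v hv'; omega
    · -- index 5
      obtain rfl : m = 4 := by omega
      have e2 : a 2 = 0 := by have := hv 2 (by omega); omega
      have e3 : a 3 = 0 := by have := hv 3 (by omega); omega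
      have e4 : a 4 = 0 := by have := hv 4 (by omega); omega
      clear hv ih
      apply mex_eq
      · intro i hi hs
        interval_cases i <;> norm_num at hs <;> omega
      · intro v hv' hmem
        have f0 := hmem 0 (by omega)
        have f1 := hmem 1 (by omega)
        have f2 := hmem 2 (by omega)
        norm_num at f0 f1 f2
        omega
    · -- 5 mod 8, at least 13
      apply mex_eq
      · intro i hi hs
        have h1' := hv i hi
        have h2' := hv (m - i) (by omega)
        clear hv ih
        rcases h1' with h1' | h1' | h1' | h1' | h1' | h1' | h1' <;>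
        rcases h2' with h2' | h2' | h2' | h2' | h2' | h2' | h2' <;> omega
      · have g0 : a m = 0 := by have := hv m le_rfl; omega
        have g1 : a (m - 1) = 0 := by have := hv (m - 1) (by omega); omega
        have g2 : a (m - 2) = 0 := by have := hv (m - 2) (by omega); omega
        have g3 : a (m - 3) = h := by have := hv (m - 3) (by omega); omega
        have g6 : a (m - 6) = 1 := by have := hv (m - 6) (by omega); omega
        have k2 : a 2 = 0 := by have := hv 2 (by omega); omega
        have k3 : a 3 = 0 := by have := hv 3 (by omega); omega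
        have k6 : a 6 = 1 := by have := hv 6 (by omega); omega
        clear hv ih
        intro v hv' hmem
        have f0 := hmem 0 (by omega)
        have f1 := hmem 1 (by omega)
        have f2 := hmem 2 (by omega)
        have f3 := hmem 3 (by omega)
        have f6 := hmem 6 (by omega)
        simp only [Nat.sub_zero] at f0
        omega
    · -- 1 mod 8, at least 9
      apply mex_eq
      · intro i hi hs
        have h1' := hv i hi
        have h2' := hv (m - i) (by omega)
        clear hv ih
        rcases h1' with h1' | h1' | h1' | h1' | h1' | h1' | h1' <;>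
        rcases h2' with h2' | h2' | h2' | h2' | h2' | h2' | h2' <;> omega
      · have g0 : a m = 1 := by have := hv m le_rfl; omega
        have g2 : a (m - 2) = 1 := by have := hv (m - 2) (by omega); omega
        have g4 : a (m - 4) = 0 := by have := hv (m - 4) (by omega); omega
        have g5 : a (m - 5) = 0 := by have := hv (m - 5) (by omega); omega
        have k2 : a 2 = 0 := by have := hv 2 (by omega); omega
        have k4 : a 4 = 0 := by have := hv 4 (by omega); omega
        have k5 : a 5 = u₀ := by have := hv 5 (by omega); omega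
        clear hv ih
        intro v hv' hmem
        have f0 := hmem 0 (by omega)
        have f2 := hmem 2 (by omega)
        have f4 := hmem 4 (by omega)
        have f5 := hmem 5 (by omega)
        simp only [Nat.sub_zero] at f0
        omega
    · -- value 1
      apply mex_eq
      · intro i hi hs
        have h1' := hv i hi
        have h2' := hv (m - i) (by omega)
        clear hv ih
        rcases h1' with h1' | h1' | h1' | h1' | h1' | h1' | h1' <;>
        rcases h2' with h2' | h2' | h2' | h2' | h2' | h2' | h2' <;> omega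
      · have g3 : a (m - 3) = 0 := by have := hv (m - 3) (by omega); omega
        have k3 : a 3 = 0 := by have := hv 3 (by omega); omega
        clear hv ih
        intro v hv' hmem
        have f3 := hmem 3 (by omega)
        omega

/-- Every mex sequence with at most two given terms is ultimately periodic. -/
theorem result (a : ℕ → ℕ) (n : ℕ) (hn : n ≤ 1)
    (hmex : ∀ m : ℕ, n ≤ m →
      a (m + 1) = sInf {k : ℕ | ∀ i : ℕ, i ≤ m → a i + a (m - i) ≠ k}) :
    ∃ p : ℕ, 0 < p ∧ ∃ N : ℕ, ∀ m : ℕ, N ≤ m → a (m + p) = a m := by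
  have hm1 : ∀ m : ℕ, 1 ≤ m →
      a (m + 1) = sInf {k : ℕ | ∀ i : ℕ, i ≤ m → a i + a (m - i) ≠ k} :=
    fun m hm => hmex m (by omega)
  by_cases x0 : a 0 = 0
  · by_cases y0 : a 1 = 0
    · refine ⟨3, by omega, 1, fun m hm => ?_⟩
      rw [zeroZero a x0 y0 hm1 m hm, zeroZero a x0 y0 hm1 (m + 3) (by omega)]
      omega
    · refine ⟨2, by omega, 2, fun m hm => ?_⟩
      rw [zeroPos a x0 (by omega) hm1 m hm, zeroPos a x0 (by omega) hm1 (m + 2) (by omega)]
      omega
  by_cases y0 : a 1 = 0
  · -- the rule holds from the index 0 on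
    have hm0 : ∀ m : ℕ, 0 ≤ m →
        a (m + 1) = sInf {k : ℕ | ∀ i : ℕ, i ≤ m → a i + a (m - i) ≠ k} := by
      intro m _
      rcases Nat.eq_zero_or_pos m with rfl | h
      · rw [mex_eq _ 0]
        · simpa using y0
        · intro i hi hs
          obtain rfl : i = 0 := by omega
          simp at hs
          omega
        · intro v hv; omega
      · exact hm1 m h
    by_cases x1 : a 0 = 1
    · exact ⟨5, by omega, 1, fun m hm => by
        have := LastOne.result a 0 (fun i hi => by
          obtain rfl : i = 0 := by omega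
          omega) x1 (Or.inl (fun i hi => by
          obtain rfl : i = 0 := by omega
          omega)) hm0 m hm
        simpa using this⟩
    · exact ⟨5, by omega, 1, fun m hm => by
        have := (AtLeastTwo.result a 0 (fun i hi => by
          obtain rfl : i = 0 := by omega
          omega) hm0).1 m hm
        simpa using this⟩
  by_cases y1 : a 1 = 1
  · refine ⟨8, by omega, 2, fun m hm => ?_⟩
    have := LastOne.result a 1 (fun i hi => by interval_cases i <;> omega) y1 (by
      by_cases h2 : a 0 = 2
      · right; intro i hi; interval_cases i <;> omega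
      · left; intro i hi; interval_cases i <;> omega) hm1 m (by omega)
    simpa using this
  by_cases x1 : a 0 = 1
  · have key : ∃ u₀ u₁ h : ℕ, (a 1 = 2 ∧ u₀ = 3 ∧ u₁ = 3 ∧ h = 4) ∨
        (a 1 = 4 ∧ u₀ = 2 ∧ u₁ = 5 ∧ h = 3) ∨
        (3 ≤ a 1 ∧ a 1 ≠ 4 ∧ u₀ = 2 ∧ u₁ = 4 ∧ h = 3) := by
      rcases Nat.lt_or_ge (a 1) 3 with c | c
      · exact ⟨3, 3, 4, by omega⟩
      · by_cases c4 : a 1 = 4
        · exact ⟨2, 5, 3, by omega⟩
        · exact ⟨2, 4, 3, by omega⟩
    obtain ⟨u₀, u₁, h, hc⟩ := key
    refine ⟨8, by omega, 6, fun m hm => ?_⟩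
    rw [oneBig a x1 (by omega) u₀ u₁ h hc hm1 m (by omega),
      oneBig a x1 (by omega) u₀ u₁ h hc hm1 (m + 8) (by omega)]
    have e : (m + 8) % 8 = m % 8 := by omega
    rw [e, if_neg (show ¬ m = 5 by omega), if_neg (show ¬ m + 8 = 5 by omega)]
  · refine ⟨8, by omega, 2, fun m hm => ?_⟩
    have := (AtLeastTwo.result a 1 (fun i hi => by interval_cases i <;> omega) hm1).1 m (by omega)
    simpa using this

end Pool.Agent.Results.MP_495f0d_co.TwoTerms
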